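import Mathlib

set_option autoImplicit false

/-! Project GK (helper332), leaf A4: expansion of a power with some marked positions (helper265). -/

namespace Pool.Agent.N265.GK

open Finset

/-- the positions which are not marked -/
def Rest {α ι : Type*} (e : α ↪ ι) : Type _ := {i : ι // i ∉ Set.range e}

noncomputable instance restFintype {α ι : Type*} [Fintype ι] (e : α ↪ ι) : Fintype (Rest e) :=
  Fintype.ofInjective (fun i : Rest e => i.1) Subtype.val_injective

noncomputable instance restDecEq {α ι : Type*} (e : α ↪ ι) : DecidableEq (Rest e) :=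
  Classical.decEq _

/-- the marked positions and the others -/
noncomputable def split {α ι : Type*} (e : α ↪ ι) : α ⊕ Rest e ≃ ι :=
  Equiv.ofBijective (fun s => Sum.elim (fun a => e a) (fun i : Rest e => i.1) s) (by
    constructor
    · rintro (a | i) (b | j) h
      · simp only [Sum.elim_inl] at h
        rw [e.injective h]
      · exact absurd ⟨a, h⟩ j.2
      · exact absurd ⟨b, h.symm⟩ i.2
      · simp only [Sum.elim_inr] at h
        rw [Subtype.ext h]
    · intro i
      by_cases h : i ∈ Set.range e
      · obtain ⟨a, rfl⟩ := h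
        exact ⟨Sum.inl a, rfl⟩
      · exact ⟨Sum.inr ⟨i, h⟩, rfl⟩)

theorem split_inl {α ι : Type*} (e : α ↪ ι) (a : α) : split e (Sum.inl a) = e a := rfl

/-- words are pairs of words -/
noncomputable def pairs {α ι : Type*} (e : α ↪ ι) (Γ : Type*) :
    (ι → Γ) ≃ (α → Γ) × (Rest e → Γ) :=
  (Equiv.arrowCongr (split e).symm (Equiv.refl Γ)).trans (Equiv.sumArrowEquivProdArrow α (Rest e) Γ)

theorem pairs_fst {α ι Γ : Type*} (e : α ↪ ι) (W : ι → Γ) (a : α) : (pairs e Γ W).1 a = W (e a) := rfl

theorem pairs_snd {α ι Γ : Type*} (e : α ↪ ι) (W : ι → Γ) (b : Rest e) :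
    (pairs e Γ W).2 b = W (split e (Sum.inr b)) := rfl

theorem card_rest {α ι : Type*} [Fintype α] [Fintype ι] (e : α ↪ ι) :
    Fintype.card (Rest e) = Fintype.card ι - Fintype.card α := by
  have h := Fintype.card_congr (split e)
  rw [Fintype.card_sum] at h
  omega

/-- A4: expansion of `f ^ N` with some marked positions -/
theorem expand {Γ R α ι : Type*} [CommRing R] [Algebra ℝ R] [Fintype α] [DecidableEq α]
    [Fintype ι] [DecidableEq ι] (C : Finset Γ) (φ : Γ → R) (e : α ↪ ι) (H : (α → Γ) → ℝ) :
    ∑ W ∈ Fintype.piFinset (fun _ : ι => C), H (fun a => W (e a)) • ∏ i, φ (W i) =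
      (∑ V ∈ Fintype.piFinset (fun _ : α => C), H V • ∏ a, φ (V a)) *
        (∑ c ∈ C, φ c) ^ (Fintype.card ι - Fintype.card α) := by
  have h1 : ∑ W ∈ Fintype.piFinset (fun _ : ι => C), H (fun a => W (e a)) • ∏ i, φ (W i) =
      ∑ P ∈ Fintype.piFinset (fun _ : α => C) ×ˢ Fintype.piFinset (fun _ : Rest e => C),
        (H P.1 • ∏ a, φ (P.1 a)) * ∏ b, φ (P.2 b) := by
    refine Finset.sum_equiv (pairs e Γ) (fun W => ?_) (fun W _ => ?_)
    · rw [Finset.mem_product, Fintype.mem_piFinset, Fintype.mem_piFinset, Fintype.mem_piFinset]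
      constructor
      · intro h
        exact ⟨fun a => h _, fun b => h _⟩
      · rintro ⟨h2, h3⟩ i
        obtain ⟨s, rfl⟩ := (split e).surjective i
        rcases s with a | b
        · exact h2 a
        · exact h3 b
    · have h2 : ∏ i, φ (W i) = (∏ a, φ (W (e a))) * ∏ b : Rest e, φ (W (split e (Sum.inr b))) := by
        rw [← Fintype.prod_equiv (split e) (fun s => φ (W (split e s))) (fun i => φ (W i))
          (fun s => rfl), Fintype.prod_sum_type]
        rfl
      rw [h2, ← smul_mul_assoc]
      rfl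
  rw [h1, Finset.sum_product, Finset.sum_mul]
  refine Finset.sum_congr rfl fun V _ => ?_
  simp only
  rw [← Finset.mul_sum]
  congr 1
  have h3 := Finset.prod_univ_sum (fun _ : Rest e => C) (fun (_ : Rest e) (c : Γ) => φ c)
  rw [← h3, Finset.prod_const, Finset.card_univ, card_rest]

end Pool.Agent.N265.GK
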