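import Mathlib

set_option autoImplicit false
set_option linter.unusedSectionVars false

/-! Project GK (helper869), variant X: REPK, the part which needs only Mathlib (helper265). -/

namespace Pool.Agent.N265.GK

open WeierstrassCurve WeierstrassCurve.Affine

section

variable {K : Type} [Field K] [DecidableEq K] [CharZero K] {W : WeierstrassCurve K}

/-- the points with `y = 0` and the point at infinity -/
def Low (W : WeierstrassCurve K) : Set W.toAffine.Point :=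
  {P | P = 0 ∨ ∃ (x : K) (h : W.toAffine.Nonsingular x 0), P = Point.some x 0 h}

theorem low_finite (hfin : {x : K | W.toAffine.Equation x 0}.Finite) : (Low W).Finite := by
  have h1 : Low W ⊆ {0} ∪ ⋃ x ∈ {x : K | W.toAffine.Equation x 0},
      {P | ∃ h : W.toAffine.Nonsingular x 0, P = Point.some x 0 h} := by
    rintro P (hP | ⟨x, h, hP⟩)
    · exact Or.inl hP
    · refine Or.inr ?_
      simp only [Set.mem_iUnion]
      exact ⟨x, h.1, h, hP⟩
  refine Set.Finite.subset ((Set.finite_singleton _).union (hfin.biUnion fun x _ => ?_)) h1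
  refine Set.Subsingleton.finite ?_
  rintro P ⟨h, rfl⟩ Q ⟨h', rfl⟩
  rfl

theorem two_torsion_low (ha1 : W.a₁ = 0) (ha3 : W.a₃ = 0) (P : W.toAffine.Point) (hP : P + P = 0) :
    P ∈ Low W := by
  rcases P with _ | ⟨x, y, h⟩
  · exact Or.inl rfl
  · right
    have h1 : (Point.some x y h : W.toAffine.Point) = -Point.some x y h := eq_neg_of_add_eq_zero_left hP
    rw [Point.neg_some] at h1
    have h2 : y = W.toAffine.negY x y := by
      injection h1
    rw [Affine.negY, ha1, ha3] at h2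
    have h3 : y = 0 := by
      have : (2 : K) * y = 0 := by linear_combination h2
      rcases mul_eq_zero.1 this with h4 | h4
      · exact absurd h4 two_ne_zero
      · exact h4
    subst h3
    exact ⟨x, h, rfl⟩

theorem core (ha1 : W.a₁ = 0) (ha3 : W.a₃ = 0) (hfin : {x : K | W.toAffine.Equation x 0}.Finite)
    (hinf : {x : K | ∃ y, y ≠ 0 ∧ W.toAffine.Equation x y}.Infinite) (P : W.toAffine.Point) :
    ∃ (Q : W.toAffine.Point) (x y : K) (h : W.toAffine.Nonsingular x y), y ≠ 0 ∧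
      P + (Q + Q) = Point.some x y h := by
  have hns : ∀ x y : K, y ≠ 0 → W.toAffine.Equation x y → W.toAffine.Nonsingular x y := by
    intro x y hy h
    rw [Affine.nonsingular_iff]
    refine ⟨h, Or.inr ?_⟩
    rw [ha1, ha3]
    intro h1
    have : (2 : K) * y = 0 := by linear_combination h1
    rcases mul_eq_zero.1 this with h4 | h4
    · exact absurd h4 two_ne_zero
    · exact hy h4
  -- infinitely many points
  have hS : (Set.univ : Set W.toAffine.Point).Infinite := by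
    intro hf
    apply hinf
    have h1 : {x : K | ∃ y, y ≠ 0 ∧ W.toAffine.Equation x y} ⊆
        (fun P : W.toAffine.Point => match P with
          | .zero => (0 : K)
          | .some x _ _ => x) '' Set.univ := by
      rintro x ⟨y, hy, h⟩
      exact ⟨Point.some x y (hns x y hy h), Set.mem_univ _, rfl⟩
    exact (hf.image _).subset h1
  -- infinitely many doubles
  have hD : ((fun Q : W.toAffine.Point => P + (Q + Q)) '' Set.univ).Infinite := by
    intro hf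
    apply hS
    refine Set.Finite.of_finite_fibers (fun Q : W.toAffine.Point => P + (Q + Q)) hf ?_
    rintro _ ⟨Q₀, -, rfl⟩
    refine ((low_finite hfin).image (fun T => T + Q₀)).subset ?_
    rintro Q ⟨-, hQ⟩
    have h1 : P + (Q + Q) = P + (Q₀ + Q₀) := hQ
    have h2 : Q + Q = Q₀ + Q₀ := add_left_cancel h1
    refine ⟨Q - Q₀, two_torsion_low ha1 ha3 _ ?_, sub_add_cancel Q Q₀⟩
    calc Q - Q₀ + (Q - Q₀) = (Q + Q) - (Q₀ + Q₀) := by abel
      _ = 0 := by rw [h2, sub_self]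
  obtain ⟨R, hR, hR'⟩ := hD.exists_notMem_finite (low_finite (W := W) hfin)
  obtain ⟨Q, -, rfl⟩ := hR
  refine ⟨Q, ?_⟩
  simp only at hR'
  rcases hPQ : P + (Q + Q) with _ | ⟨x, y, h⟩
  · exact absurd (Or.inl hPQ) hR'
  · refine ⟨x, y, h, ?_, rfl⟩
    intro hy
    subst hy
    exact hR' (Or.inr ⟨x, h, hPQ⟩)

end

/-- Elements of `ℚ_p` close to `1` are squares (from helper681's `DC/GLUE`). -/
theorem sq_one {p : ℕ} [Fact p.Prime] (u : ℚ_[p]) (hu : ‖u - 1‖ ≤ ((p : ℝ) ^ 3)⁻¹) :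
    ∃ z : ℚ_[p], z ≠ 0 ∧ u = z ^ 2 := by
  have hp2 : (2 : ℝ) ≤ p := by exact_mod_cast (Fact.out : p.Prime).two_le
  have h8 : ((p : ℝ) ^ 3)⁻¹ ≤ 1 / 8 := by
    rw [inv_eq_one_div]
    apply one_div_le_one_div_of_le (by norm_num)
    calc (8 : ℝ) = 2 ^ 3 := by norm_num
      _ ≤ (p : ℝ) ^ 3 := pow_le_pow_left₀ (by norm_num) hp2 3
  have hu1 : ‖u‖ ≤ 1 := by
    have : u = (u - 1) + 1 := by ring
    rw [this]
    refine (Padic.nonarchimedean _ _).trans (max_le (by linarith) ?_)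
    rw [norm_one]
  set U : ℤ_[p] := ⟨u, hu1⟩ with hU
  have h2 : ‖(2 : ℤ_[p])‖ ≥ 1 / 2 := by
    have h3 : ‖(2 : ℤ_[p])‖ = ‖((2 : ℤ) : ℚ_[p])‖ := by
      rw [PadicInt.norm_def]; norm_cast
    by_cases hp : p = 2
    · subst hp
      have := Padic.norm_p (p := 2)
      rw [h3]
      push_cast
      have h4 : ‖((2 : ℕ) : ℚ_[2])‖ = ((2 : ℕ) : ℝ)⁻¹ := this
      push_cast at h4
      rw [h4]; norm_num
    · have : ¬ ((p : ℤ) ∣ 2) := by
        intro hd
        have h5 : p ∣ 2 := by exact_mod_cast hd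
        exact hp ((Nat.prime_dvd_prime_iff_eq Fact.out Nat.prime_two).1 h5)
      have h6 : ¬ ‖((2 : ℤ) : ℚ_[p])‖ < 1 := fun hh => this ((Padic.norm_intCast_lt_one_iff (k := 2)).1 hh)
      rw [h3]
      rw [not_lt] at h6
      exact (by norm_num : (1 : ℝ) / 2 ≤ 1).trans h6
  have key : ‖(Polynomial.X ^ 2 - Polynomial.C U : Polynomial ℤ_[p]).aeval (1 : ℤ_[p])‖ <
      ‖(Polynomial.X ^ 2 - Polynomial.C U : Polynomial ℤ_[p]).derivative.aeval (1 : ℤ_[p])‖ ^ 2 := by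
    have e1 : (Polynomial.X ^ 2 - Polynomial.C U : Polynomial ℤ_[p]).aeval (1 : ℤ_[p]) = 1 - U := by
      simp [Polynomial.aeval_def]
    have e2 : (Polynomial.X ^ 2 - Polynomial.C U : Polynomial ℤ_[p]).derivative.aeval (1 : ℤ_[p]) = 2 := by
      simp [Polynomial.aeval_def]; norm_num
    rw [e1, e2]
    have e3 : ‖(1 : ℤ_[p]) - U‖ = ‖u - 1‖ := by
      rw [PadicInt.norm_def, ← norm_neg]
      congr 1
      push_cast
      rw [hU]
      ring
    rw [e3]
    nlinarith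
  obtain ⟨z, hz, -⟩ := hensels_lemma key
  have hz2 : z ^ 2 = U := by
    have : z ^ 2 - U = 0 := by simpa [Polynomial.aeval_def] using hz
    exact sub_eq_zero.1 this
  refine ⟨(z : ℚ_[p]), ?_, ?_⟩
  · intro h0
    have h1 : z = 0 := Subtype.ext h0
    rw [h1] at hz2
    have h3 : U = 0 := by rw [← hz2]; ring
    have h4 : u = 0 := by
      have := congrArg (fun w : ℤ_[p] => (w : ℚ_[p])) h3
      simpa [hU] using this
    rw [h4] at hu
    have : ‖(0 : ℚ_[p]) - 1‖ = 1 := by simp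
    rw [this] at hu
    linarith
  · have := congrArg (fun w : ℤ_[p] => (w : ℚ_[p])) hz2
    simp only [hU, PadicInt.coe_pow] at this
    exact this.symm

/-- infinitely many points of `y² = (x - e₁) (x - e₂) (x - e₃)` over `ℚ_p` -/
theorem many_x (p : ℕ) [Fact p.Prime] (e1 e2 e3 : ℤ) :
    {x : ℚ_[p] | ∃ y : ℚ_[p], y ≠ 0 ∧ y ^ 2 = (x - e1) * (x - e2) * (x - e3)}.Infinite := by
  have hp : (p : ℚ_[p]) ≠ 0 := by exact_mod_cast (Fact.out : p.Prime).ne_zero
  have hpn : ‖(p : ℚ_[p])‖ = (p : ℝ)⁻¹ := Padic.norm_p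
  have hp1 : (1 : ℝ) < p := by exact_mod_cast (Fact.out : p.Prime).one_lt
  -- the points
  have h1 : ∀ k : ℕ, ((p : ℚ_[p]) ^ (2 * (k + 2)))⁻¹ ∈
      {x : ℚ_[p] | ∃ y : ℚ_[p], y ≠ 0 ∧ y ^ 2 = (x - e1) * (x - e2) * (x - e3)} := by
    intro k
    set q : ℚ_[p] := (p : ℚ_[p]) ^ (k + 2) with hq
    have hq0 : q ≠ 0 := pow_ne_zero _ hp
    have hqq : (p : ℚ_[p]) ^ (2 * (k + 2)) = q ^ 2 := by
      rw [hq, ← pow_mul]
      congr 1
      ring
    rw [hqq]
    -- the units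
    have hu : ∀ e : ℤ, ‖(1 - (e : ℚ_[p]) * q ^ 2) - 1‖ ≤ ((p : ℝ) ^ 3)⁻¹ := by
      intro e
      have e0 : (1 - (e : ℚ_[p]) * q ^ 2) - 1 = -((e : ℚ_[p]) * q ^ 2) := by ring
      rw [e0, norm_neg, norm_mul, hq, ← pow_mul, norm_pow, hpn]
      have h2 : ‖(e : ℚ_[p])‖ ≤ 1 := Padic.norm_int_le_one e
      calc ‖(e : ℚ_[p])‖ * ((p : ℝ)⁻¹) ^ ((k + 2) * 2) ≤ 1 * ((p : ℝ)⁻¹) ^ ((k + 2) * 2) := by
            gcongr
        _ = ((p : ℝ) ^ ((k + 2) * 2))⁻¹ := by rw [one_mul, inv_pow]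
        _ ≤ ((p : ℝ) ^ 3)⁻¹ := by
            apply inv_anti₀ (by positivity)
            apply pow_le_pow_right₀ hp1.le
            omega
    obtain ⟨z1, hz1, hz1'⟩ := sq_one _ (hu e1)
    obtain ⟨z2, hz2, hz2'⟩ := sq_one _ (hu e2)
    obtain ⟨z3, hz3, hz3'⟩ := sq_one _ (hu e3)
    refine ⟨(q ^ 3)⁻¹ * z1 * z2 * z3, ?_, ?_⟩
    · exact mul_ne_zero (mul_ne_zero (mul_ne_zero (inv_ne_zero (pow_ne_zero _ hq0)) hz1) hz2) hz3
    · have e1' : ((q ^ 3)⁻¹ * z1 * z2 * z3) ^ 2 = ((q ^ 3)⁻¹) ^ 2 * z1 ^ 2 * z2 ^ 2 * z3 ^ 2 := by ring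
      rw [e1', ← hz1', ← hz2', ← hz3']
      field_simp
  refine (Set.infinite_of_injective_forall_mem (f := fun k : ℕ => ((p : ℚ_[p]) ^ (2 * (k + 2)))⁻¹)
    ?_ h1)
  intro k l hkl
  simp only at hkl
  have h2 := inv_injective hkl
  have h3 := congrArg norm h2
  rw [norm_pow, norm_pow, hpn, inv_pow, inv_pow] at h3
  have h4 := inv_injective h3
  have h5 : 2 * (k + 2) = 2 * (l + 2) := pow_right_injective₀ (by linarith : (0 : ℝ) < p) hp1.ne' h4
  omega

end Pool.Agent.N265.GK
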