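import Pool.Agent.N869.GK.StmX
import Pool.Agent.N265.GK.RepkCore

set_option autoImplicit false

/-! Project GK (helper869), variant X: REPK (helper265). -/

open scoped Classical

namespace Pool.Agent.N265.GK

open WeierstrassCurve WeierstrassCurve.Affine
open Pool.Agent.N869.GK.X

theorem wk_eq {K : Type} [Field K] (e1 e2 e3 x y : K) :
    (Wk e1 e2 e3).toAffine.Equation x y ↔ y ^ 2 = (x - e1) * (x - e2) * (x - e3) := by
  rw [Affine.equation_iff]
  unfold Wk
  simp only
  constructor
  · intro h
    linear_combination h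
  · intro h
    linear_combination h

theorem t_REPK : S_REPK := by
  intro p _ e1 e2 e3 _ _ _ P
  refine core (W := Wk (e1 : ℚ_[p]) e2 e3) rfl rfl ?_ ?_ P
  · refine (Set.toFinite ({(e1 : ℚ_[p]), (e2 : ℚ_[p]), (e3 : ℚ_[p])} : Set ℚ_[p])).subset ?_
    intro x hx
    rw [Set.mem_ofPred_eq, wk_eq] at hx
    have h : (x - e1) * (x - e2) * (x - e3) = 0 := by rw [← hx]; ring
    rcases mul_eq_zero.1 h with h | h
    · rcases mul_eq_zero.1 h with h | h
      · exact Or.inl (sub_eq_zero.1 h)
      · exact Or.inr (Or.inl (sub_eq_zero.1 h))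
    · exact Or.inr (Or.inr (sub_eq_zero.1 h))
  · have h := many_x p e1 e2 e3
    simp only [wk_eq]
    exact h

end Pool.Agent.N265.GK
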